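import Mathlib

open scoped MatrixOrder ComplexOrder
open Matrix

namespace Pool.Agent.W815.PTB

/-- pointwise inequality -/
lemma pt (h e : ℂ) (p q : ℝ) (hp : 0 < p) (hq : 0 < q) :
    0 ≤ 4 * (‖h‖ ^ 2 / (p * q * (p + q))) - 4 * ((h * star e).re / (p * q)) +
      (1 / p + 1 / q) * ‖e‖ ^ 2 := by
  have h0 : 0 ≤ ‖2 * h - ((p + q : ℝ) : ℂ) * e‖ ^ 2 / (p * q * (p + q)) := by positivity
  have h1 : ‖2 * h - ((p + q : ℝ) : ℂ) * e‖ ^ 2 =
      4 * ‖h‖ ^ 2 - 4 * (p + q) * (h * star e).re + (p + q) ^ 2 * ‖e‖ ^ 2 := by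
    rw [← Complex.normSq_eq_norm_sq, ← Complex.normSq_eq_norm_sq, ← Complex.normSq_eq_norm_sq,
      Complex.normSq_apply, Complex.normSq_apply, Complex.normSq_apply]
    simp only [Complex.sub_re, Complex.sub_im, Complex.mul_re, Complex.mul_im, Complex.ofReal_re,
      Complex.ofReal_im, Complex.star_def, Complex.conj_re, Complex.conj_im, Complex.re_ofNat,
      Complex.im_ofNat]
    ring
  rw [h1] at h0
  have h2 : (4 * ‖h‖ ^ 2 - 4 * (p + q) * (h * star e).re + (p + q) ^ 2 * ‖e‖ ^ 2) /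
      (p * q * (p + q)) = 4 * (‖h‖ ^ 2 / (p * q * (p + q))) - 4 * ((h * star e).re / (p * q)) +
      (1 / p + 1 / q) * ‖e‖ ^ 2 := by
    field_simp
    ring
  rw [h2] at h0
  exact h0

variable {ι : Type*} [Fintype ι] [DecidableEq ι]

lemma trace_mul_nonneg {m : Type*} [Fintype m] [DecidableEq m] {A B : Matrix m m ℂ}
    (hA : A.PosSemidef) (hB : B.PosSemidef) : 0 ≤ ((A * B).trace).re := by
  obtain ⟨X, rfl⟩ := CStarAlgebra.nonneg_iff_eq_star_mul_self.mp hA.nonneg
  obtain ⟨Y, rfl⟩ := CStarAlgebra.nonneg_iff_eq_star_mul_self.mp hB.nonneg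
  have : (star X * X * (star Y * Y)).trace = ((X * star Y) * (X * star Y)ᴴ).trace := by
    rw [Matrix.conjTranspose_mul]
    simp only [star_eq_conjTranspose, conjTranspose_conjTranspose]
    rw [Matrix.mul_assoc, Matrix.trace_mul_comm]
    simp only [Matrix.mul_assoc]
  rw [this]
  exact (Complex.le_def.mp (Matrix.posSemidef_self_mul_conjTranspose (X * star Y)).trace_nonneg).1

lemma key (l : ι → ℝ) (hl : ∀ i, 0 < l i) (G : Matrix ι ι ℂ) (hG : G.PosSemidef)
    (hd : ∀ i, (G * G) i i = ((l i : ℝ) : ℂ) ^ 2) :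
    ∑ i, l i - (G.trace).re ≤
      ∑ i, ∑ j, (if i = j then 0 else ‖(G * G) i j‖ ^ 2 / (l i * l j * (l i + l j))) := by
  set Lam : Matrix ι ι ℂ := diagonal (fun i => ((l i : ℝ) : ℂ)) with hLam
  set Li : Matrix ι ι ℂ := diagonal (fun i => (((l i)⁻¹ : ℝ) : ℂ)) with hLi
  have hLL : Lam * Li = 1 := by
    rw [hLam, hLi, diagonal_mul_diagonal, ← diagonal_one]
    congr 1
    ext i
    have := (hl i).ne'
    rw [← Complex.ofReal_mul, mul_inv_cancel₀ this]
    simp
  have hLL' : Li * Lam = 1 := by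
    rw [hLam, hLi, diagonal_mul_diagonal, ← diagonal_one]
    congr 1
    ext i
    have := (hl i).ne'
    rw [← Complex.ofReal_mul, inv_mul_cancel₀ this]
    simp
  set E : Matrix ι ι ℂ := G - Lam with hE
  set H : Matrix ι ι ℂ := G * G - Lam * Lam with hH
  have hLamH : Lamᴴ = Lam := by
    rw [hLam, diagonal_conjTranspose]
    congr 1
    ext i
    simp
  have hLiH : Liᴴ = Li := by
    rw [hLi, diagonal_conjTranspose]
    congr 1
    ext i
    simp
  have hEH : Eᴴ = E := by
    rw [hE, conjTranspose_sub, hG.1.eq, hLamH]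
  have hHE : H = Lam * E + E * Lam + E * E := by
    rw [hH, hE]
    noncomm_ring
  have hid : Li * H * Li * E = E * Li * E + Li * (E * E) * Li * G := by
    have hG' : G = E + Lam := by rw [hE]; abel
    have e1 : Li * H * Li * E = (Li * Lam) * E * Li * E + Li * E * (Lam * Li) * E
        + Li * (E * E) * Li * E := by
      rw [hHE]; noncomm_ring
    have e2 : Li * (E * E) * Li * G = Li * (E * E) * Li * E + Li * (E * E) * (Li * Lam) := by
      rw [hG']; noncomm_ring
    rw [e1, e2, hLL, hLL']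
    noncomm_ring
  -- the trace inequality
  have htr : ((E * Li * E).trace).re ≤ ((Li * H * Li * E).trace).re := by
    rw [hid, trace_add, Complex.add_re]
    have hps : (Li * (E * E) * Li).PosSemidef := by
      have : Li * (E * E) * Li = (E * Li)ᴴ * (E * Li) := by
        rw [conjTranspose_mul, hEH, hLiH]
        noncomm_ring
      rw [this]
      exact posSemidef_conjTranspose_mul_self _
    have := trace_mul_nonneg hps hG
    linarith
  have hN : ((E * Li * E).trace).re = ∑ i, ∑ j, ‖E i j‖ ^ 2 / l j := by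
    simp only [Matrix.trace, Matrix.diag, Matrix.mul_apply, hLi, diagonal_apply, Complex.re_sum]
    refine Finset.sum_congr rfl fun i _ => ?_
    refine Finset.sum_congr rfl fun j _ => ?_
    simp only [mul_ite, mul_zero, Finset.sum_ite_eq', Finset.mem_univ, if_true]
    have h1 : E j i = star (E i j) := by
      conv_lhs => rw [← hEH]
      rfl
    rw [h1]
    rw [show E i j * (((l j)⁻¹ : ℝ) : ℂ) * star (E i j) = (((l j)⁻¹ : ℝ) : ℂ) * (E i j * star (E i j)) by ring]
    rw [Complex.star_def, Complex.mul_conj, ← Complex.ofReal_mul, Complex.ofReal_re,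
      Complex.normSq_eq_norm_sq]
    field_simp
  have hNs : ∑ i, ∑ j, ‖E i j‖ ^ 2 / l i = ∑ i, ∑ j, ‖E i j‖ ^ 2 / l j := by
    rw [Finset.sum_comm]
    refine Finset.sum_congr rfl fun i _ => ?_
    refine Finset.sum_congr rfl fun j _ => ?_
    have h1 : E j i = star (E i j) := by
      conv_lhs => rw [← hEH]
      rfl
    rw [h1, norm_star]
  have hT : ((Li * H * Li * E).trace).re = ∑ i, ∑ j, (H i j * star (E i j)).re / (l i * l j) := by
    simp only [Matrix.trace, Matrix.diag, Matrix.mul_apply, hLi, diagonal_apply, Complex.re_sum]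
    refine Finset.sum_congr rfl fun i _ => ?_
    refine Finset.sum_congr rfl fun j _ => ?_
    simp only [ite_mul, zero_mul, mul_ite, mul_zero, Finset.sum_ite_eq', Finset.sum_ite_eq,
      Finset.mem_univ, if_true]
    have h1 : E j i = star (E i j) := by
      conv_lhs => rw [← hEH]
      rfl
    rw [h1]
    rw [show (((l i)⁻¹ : ℝ) : ℂ) * H i j * (((l j)⁻¹ : ℝ) : ℂ) * star (E i j) =
      (((l i)⁻¹ * (l j)⁻¹ : ℝ) : ℂ) * (H i j * star (E i j)) by push_cast; ring]
    rw [Complex.re_ofReal_mul]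
    field_simp
  have hHd : ∀ i, H i i = 0 := by
    intro i
    rw [hH, Matrix.sub_apply, hd i, hLam, diagonal_mul_diagonal, diagonal_apply_eq]
    ring
  have hHo : ∀ i j, i ≠ j → H i j = (G * G) i j := by
    intro i j hij
    rw [hH, Matrix.sub_apply, hLam, diagonal_mul_diagonal, diagonal_apply_ne _ hij]
    ring
  have hsum : 0 ≤ ∑ i, ∑ j, (4 * (‖H i j‖ ^ 2 / (l i * l j * (l i + l j))) -
      4 * ((H i j * star (E i j)).re / (l i * l j)) + (1 / l i + 1 / l j) * ‖E i j‖ ^ 2) :=
    Finset.sum_nonneg fun i _ => Finset.sum_nonneg fun j _ => pt _ _ _ _ (hl i) (hl j)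
  have hsum2 : ∑ i, ∑ j, (4 * (‖H i j‖ ^ 2 / (l i * l j * (l i + l j))) -
      4 * ((H i j * star (E i j)).re / (l i * l j)) + (1 / l i + 1 / l j) * ‖E i j‖ ^ 2) =
      4 * (∑ i, ∑ j, ‖H i j‖ ^ 2 / (l i * l j * (l i + l j))) -
      4 * (∑ i, ∑ j, (H i j * star (E i j)).re / (l i * l j)) +
      ((∑ i, ∑ j, ‖E i j‖ ^ 2 / l i) + (∑ i, ∑ j, ‖E i j‖ ^ 2 / l j)) := by
    simp only [Finset.mul_sum, ← Finset.sum_sub_distrib, ← Finset.sum_add_distrib]
    refine Finset.sum_congr rfl fun i _ => ?_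
    refine Finset.sum_congr rfl fun j _ => ?_
    ring
  rw [hsum2, hNs, ← hN, ← hT] at hsum
  have hR : ∑ i, ∑ j, ‖H i j‖ ^ 2 / (l i * l j * (l i + l j)) =
      ∑ i, ∑ j, (if i = j then 0 else ‖(G * G) i j‖ ^ 2 / (l i * l j * (l i + l j))) := by
    refine Finset.sum_congr rfl fun i _ => ?_
    refine Finset.sum_congr rfl fun j _ => ?_
    split_ifs with hij
    · subst hij
      rw [hHd]; simp
    · rw [hHo i j hij]
  rw [hR] at hsum
  -- trace of E
  have hTrE : ∑ i, l i - (G.trace).re = ((E * Li * E).trace).re / 2 := by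
    have e3 : E * E = G * G - Lam * E - E * Lam - Lam * Lam := by
      rw [hE]; noncomm_ring
    have e4 : (E * Li * E).trace = (Li * (E * E)).trace := by
      rw [Matrix.mul_assoc, Matrix.trace_mul_comm, Matrix.mul_assoc]
    have e5 : Li * (E * E) = Li * (G * G) - (Li * Lam) * E - Li * E * Lam - (Li * Lam) * Lam := by
      rw [e3]; noncomm_ring
    have e6 : (Li * E * Lam).trace = E.trace := by
      rw [Matrix.trace_mul_comm, ← Matrix.mul_assoc, hLL, Matrix.one_mul]
    have e7 : (Li * (G * G)).trace = Lam.trace := by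
      simp only [Matrix.trace, Matrix.diag]
      refine Finset.sum_congr rfl fun i _ => ?_
      rw [hLi, diagonal_mul, hd i, hLam, diagonal_apply_eq]
      have := (hl i).ne'
      rw [sq, ← mul_assoc, ← Complex.ofReal_mul, inv_mul_cancel₀ this]
      simp
    have e8 : (E * Li * E).trace = 2 * (Lam.trace - G.trace) := by
      rw [e4, e5, hLL']
      simp only [trace_sub, Matrix.one_mul, e6, e7]
      rw [hE, trace_sub]
      ring
    rw [e8]
    have e9 : (Lam.trace).re = ∑ i, l i := by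
      simp [hLam, Matrix.trace, Complex.re_sum]
    rw [Complex.mul_re, Complex.sub_re, e9]
    simp
  rw [hTrE]
  linarith

end Pool.Agent.W815.PTB
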