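import Mathlib
import Pool.Agent.W815.T1

open scoped MatrixOrder ComplexOrder
open Matrix

namespace Pool.Agent.W815.PTB

/-- spectral theorem in product form -/
lemma spec {m : Type*} [Fintype m] [DecidableEq m] {A : Matrix m m ℂ} (hA : A.IsHermitian) :
    A = (hA.eigenvectorUnitary : Matrix m m ℂ) * diagonal (fun i => ((hA.eigenvalues i : ℝ) : ℂ)) *
      (hA.eigenvectorUnitary : Matrix m m ℂ)ᴴ := by
  conv_lhs => rw [hA.spectral_theorem, Unitary.conjStarAlgAut_apply]
  rfl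

lemma uni1 {m : Type*} [Fintype m] [DecidableEq m] {A : Matrix m m ℂ} (hA : A.IsHermitian) :
    (hA.eigenvectorUnitary : Matrix m m ℂ)ᴴ * (hA.eigenvectorUnitary : Matrix m m ℂ) = 1 :=
  (Matrix.mem_unitaryGroup_iff'.mp hA.eigenvectorUnitary.2)

lemma uni2 {m : Type*} [Fintype m] [DecidableEq m] {A : Matrix m m ℂ} (hA : A.IsHermitian) :
    (hA.eigenvectorUnitary : Matrix m m ℂ) * (hA.eigenvectorUnitary : Matrix m m ℂ)ᴴ = 1 :=
  (Matrix.mem_unitaryGroup_iff.mp hA.eigenvectorUnitary.2)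

/-- trace of the square root as a sum over the roots of the characteristic polynomial -/
lemma tr_sqrt_roots {m : Type*} [Fintype m] [DecidableEq m] {M : Matrix m m ℂ}
    (hM : M.PosSemidef) :
    (CFC.sqrt M).trace.re = (M.charpoly.roots.map (fun z => √(z.re))).sum := by
  have h1 : CFC.sqrt M = (hM.1.eigenvectorUnitary : Matrix m m ℂ) *
      diagonal (fun i => ((√(hM.1.eigenvalues i) : ℝ) : ℂ)) *
      (hM.1.eigenvectorUnitary : Matrix m m ℂ)ᴴ := by
    have hb : ((hM.1.eigenvectorUnitary : Matrix m m ℂ) *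
      diagonal (fun i => ((√(hM.1.eigenvalues i) : ℝ) : ℂ)) *
      (hM.1.eigenvectorUnitary : Matrix m m ℂ)ᴴ).PosSemidef := by
      apply Matrix.PosSemidef.mul_mul_conjTranspose_same
      apply Matrix.PosSemidef.diagonal
      intro i
      simp only [Pi.zero_apply]
      exact_mod_cast Real.sqrt_nonneg _
    rw [CFC.sqrt_eq_iff _ _ hM.nonneg hb.nonneg]
    have h2 := spec hM.1
    have h3 : diagonal (fun i => ((√(hM.1.eigenvalues i) : ℝ) : ℂ)) *
        diagonal (fun i => ((√(hM.1.eigenvalues i) : ℝ) : ℂ)) =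
        diagonal (fun i => ((hM.1.eigenvalues i : ℝ) : ℂ)) := by
      rw [diagonal_mul_diagonal]
      congr 1
      ext i
      rw [← Complex.ofReal_mul, Real.mul_self_sqrt (hM.eigenvalues_nonneg i)]
    calc _ = (hM.1.eigenvectorUnitary : Matrix m m ℂ) *
          diagonal (fun i => ((√(hM.1.eigenvalues i) : ℝ) : ℂ)) *
          ((hM.1.eigenvectorUnitary : Matrix m m ℂ)ᴴ * (hM.1.eigenvectorUnitary : Matrix m m ℂ)) *
          diagonal (fun i => ((√(hM.1.eigenvalues i) : ℝ) : ℂ)) *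
          (hM.1.eigenvectorUnitary : Matrix m m ℂ)ᴴ := by noncomm_ring
      _ = (hM.1.eigenvectorUnitary : Matrix m m ℂ) *
          (diagonal (fun i => ((√(hM.1.eigenvalues i) : ℝ) : ℂ)) *
          diagonal (fun i => ((√(hM.1.eigenvalues i) : ℝ) : ℂ))) *
          (hM.1.eigenvectorUnitary : Matrix m m ℂ)ᴴ := by rw [uni1]; noncomm_ring
      _ = M := by rw [h3, ← h2]
  rw [h1, trace_mul_comm, ← Matrix.mul_assoc, uni1, Matrix.one_mul,
    hM.1.roots_charpoly_eq_eigenvalues]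
  simp [Matrix.trace, Complex.re_sum]

/-- trace of the absolute value of a Hermitian matrix -/
lemma abs_eq {m : Type*} [Fintype m] [DecidableEq m] {T : Matrix m m ℂ}
    (hT : T.IsHermitian) :
    CFC.sqrt (Tᴴ * T) = (hT.eigenvectorUnitary : Matrix m m ℂ) *
      diagonal (fun i => ((|hT.eigenvalues i| : ℝ) : ℂ)) *
      (hT.eigenvectorUnitary : Matrix m m ℂ)ᴴ := by
  have hb : ((hT.eigenvectorUnitary : Matrix m m ℂ) *
      diagonal (fun i => ((|hT.eigenvalues i| : ℝ) : ℂ)) *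
      (hT.eigenvectorUnitary : Matrix m m ℂ)ᴴ).PosSemidef := by
    apply Matrix.PosSemidef.mul_mul_conjTranspose_same
    apply Matrix.PosSemidef.diagonal
    intro i
    simp only [Pi.zero_apply]
    exact_mod_cast abs_nonneg _
  rw [CFC.sqrt_eq_iff _ _ (posSemidef_conjTranspose_mul_self T).nonneg hb.nonneg, hT.eq]
  have h2 := spec hT
  have h3 : diagonal (fun i => ((|hT.eigenvalues i| : ℝ) : ℂ)) *
      diagonal (fun i => ((|hT.eigenvalues i| : ℝ) : ℂ)) =
      diagonal (fun i => ((hT.eigenvalues i : ℝ) : ℂ)) *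
      diagonal (fun i => ((hT.eigenvalues i : ℝ) : ℂ)) := by
    rw [diagonal_mul_diagonal, diagonal_mul_diagonal]
    congr 1
    ext i
    rw [← Complex.ofReal_mul, ← Complex.ofReal_mul, abs_mul_abs_self]
  calc _ = (hT.eigenvectorUnitary : Matrix m m ℂ) *
        diagonal (fun i => ((|hT.eigenvalues i| : ℝ) : ℂ)) *
        ((hT.eigenvectorUnitary : Matrix m m ℂ)ᴴ * (hT.eigenvectorUnitary : Matrix m m ℂ)) *
        diagonal (fun i => ((|hT.eigenvalues i| : ℝ) : ℂ)) *
        (hT.eigenvectorUnitary : Matrix m m ℂ)ᴴ := by noncomm_ring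
    _ = (hT.eigenvectorUnitary : Matrix m m ℂ) *
        (diagonal (fun i => ((|hT.eigenvalues i| : ℝ) : ℂ)) *
        diagonal (fun i => ((|hT.eigenvalues i| : ℝ) : ℂ))) *
        (hT.eigenvectorUnitary : Matrix m m ℂ)ᴴ := by rw [uni1]; noncomm_ring
    _ = (hT.eigenvectorUnitary : Matrix m m ℂ) *
        diagonal (fun i => ((hT.eigenvalues i : ℝ) : ℂ)) *
        ((hT.eigenvectorUnitary : Matrix m m ℂ)ᴴ * (hT.eigenvectorUnitary : Matrix m m ℂ)) *
        diagonal (fun i => ((hT.eigenvalues i : ℝ) : ℂ)) *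
        (hT.eigenvectorUnitary : Matrix m m ℂ)ᴴ := by rw [h3, uni1]; noncomm_ring
    _ = ((hT.eigenvectorUnitary : Matrix m m ℂ) *
        diagonal (fun i => ((hT.eigenvalues i : ℝ) : ℂ)) *
        (hT.eigenvectorUnitary : Matrix m m ℂ)ᴴ) * ((hT.eigenvectorUnitary : Matrix m m ℂ) *
        diagonal (fun i => ((hT.eigenvalues i : ℝ) : ℂ)) *
        (hT.eigenvectorUnitary : Matrix m m ℂ)ᴴ) := by noncomm_ring
    _ = T * T := by rw [← h2]

/-- `Tr √(V V*) = Tr √(V* V)` -/
lemma tr_sqrt_comm {m k : Type*} [Fintype m] [DecidableEq m] [Fintype k] [DecidableEq k]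
    (V : Matrix m k ℂ) :
    (CFC.sqrt (V * Vᴴ)).trace.re = (CFC.sqrt (Vᴴ * V)).trace.re := by
  rw [tr_sqrt_roots (posSemidef_self_mul_conjTranspose V),
    tr_sqrt_roots (posSemidef_conjTranspose_mul_self V)]
  have h := Matrix.charpoly_mul_comm' V Vᴴ
  have h1 : (V * Vᴴ).charpoly ≠ 0 := (Matrix.charpoly_monic _).ne_zero
  have h2 : (Vᴴ * V).charpoly ≠ 0 := (Matrix.charpoly_monic _).ne_zero
  have h3 := congrArg Polynomial.roots h
  rw [Polynomial.roots_mul (mul_ne_zero (pow_ne_zero _ Polynomial.X_ne_zero) h1),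
    Polynomial.roots_mul (mul_ne_zero (pow_ne_zero _ Polynomial.X_ne_zero) h2),
    Polynomial.roots_X_pow, Polynomial.roots_X_pow] at h3
  have h4 := congrArg (fun s : Multiset ℂ => (s.map (fun z => √(z.re))).sum) h3
  simpa [Multiset.map_nsmul, Multiset.sum_nsmul] using h4


lemma pair_aux {m : Type*} [Fintype m] [DecidableEq m] (x y : m → ℝ) (hx : ∀ a, 0 ≤ x a)
    (hy : ∀ a, 0 ≤ y a) (U W P Q : Matrix m m ℂ) (hUU' : U * Uᴴ = 1)
    (hWW' : W * Wᴴ = 1) (hPH : Pᴴ = P) (hPP : P * P = P) (hQH : Qᴴ = Q) (hQQ : Q * Q = Q)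
    (hPQ : Q + P = 1) :
    ∑ a, ∑ b, (x a * y b / (x a + y b)) * ‖(Wᴴ * U) b a‖ ^ 2 ≤
      ((U * diagonal (fun i => ((x i : ℝ) : ℂ)) * Uᴴ) * Q).trace.re +
      ((W * diagonal (fun i => ((y i : ℝ) : ℂ)) * Wᴴ) * P).trace.re := by
  have hAQ : ((U * diagonal (fun i => ((x i : ℝ) : ℂ)) * Uᴴ) * Q).trace.re =
      ∑ a, ∑ b, x a * ‖(Wᴴ * Q * U) b a‖ ^ 2 := by
    have h7 : ((U * diagonal (fun i => ((x i : ℝ) : ℂ)) * Uᴴ) * Q).trace =
        (diagonal (fun i => ((x i : ℝ) : ℂ)) *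
        ((Wᴴ * Q * U)ᴴ * (Wᴴ * Q * U))).trace := by
      have h8 : (Wᴴ * Q * U)ᴴ * (Wᴴ * Q * U) = Uᴴ * Q * U := by
        rw [conjTranspose_mul, conjTranspose_mul, conjTranspose_conjTranspose, hQH]
        calc Uᴴ * (Q * W) * (Wᴴ * Q * U) = Uᴴ * Q * (W * Wᴴ) * Q * U := by
              simp only [Matrix.mul_assoc]
          _ = Uᴴ * (Q * Q) * U := by rw [hWW']; simp only [Matrix.mul_assoc, Matrix.one_mul]
          _ = _ := by rw [hQQ]
      rw [h8]
      calc _ = (U * (diagonal (fun i => ((x i : ℝ) : ℂ)) * Uᴴ * Q)).trace := by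
            simp only [Matrix.mul_assoc]
        _ = ((diagonal (fun i => ((x i : ℝ) : ℂ)) * Uᴴ * Q) * U).trace :=
            trace_mul_comm _ _
        _ = _ := by simp only [Matrix.mul_assoc]
    rw [h7, Matrix.trace, Complex.re_sum]
    refine Finset.sum_congr rfl fun a _ => ?_
    rw [Matrix.diag_apply, diagonal_mul, Matrix.mul_apply, Complex.re_ofReal_mul, Complex.re_sum,
      Finset.mul_sum]
    refine Finset.sum_congr rfl fun b _ => ?_
    rw [conjTranspose_apply, mul_comm (star _), Complex.star_def, Complex.mul_conj,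
      Complex.ofReal_re, Complex.normSq_eq_norm_sq]
  have hBP : ((W * diagonal (fun i => ((y i : ℝ) : ℂ)) * Wᴴ) * P).trace.re =
      ∑ a, ∑ b, y b * ‖(Wᴴ * P * U) b a‖ ^ 2 := by
    have h7 : ((W * diagonal (fun i => ((y i : ℝ) : ℂ)) * Wᴴ) * P).trace =
        (diagonal (fun i => ((y i : ℝ) : ℂ)) *
        ((Wᴴ * P * U) * (Wᴴ * P * U)ᴴ)).trace := by
      have h8 : (Wᴴ * P * U) * (Wᴴ * P * U)ᴴ = Wᴴ * P * W := by
        rw [conjTranspose_mul, conjTranspose_mul, conjTranspose_conjTranspose, hPH]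
        calc (Wᴴ * P * U) * (Uᴴ * (P * W)) = Wᴴ * P * (U * Uᴴ) * P * W := by
              simp only [Matrix.mul_assoc]
          _ = Wᴴ * (P * P) * W := by rw [hUU']; simp only [Matrix.mul_assoc, Matrix.one_mul]
          _ = _ := by rw [hPP]
      rw [h8]
      calc _ = (W * (diagonal (fun i => ((y i : ℝ) : ℂ)) * Wᴴ * P)).trace := by
            simp only [Matrix.mul_assoc]
        _ = ((diagonal (fun i => ((y i : ℝ) : ℂ)) * Wᴴ * P) * W).trace :=
            trace_mul_comm _ _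
        _ = _ := by simp only [Matrix.mul_assoc]
    rw [h7, Matrix.trace, Complex.re_sum, Finset.sum_comm]
    refine Finset.sum_congr rfl fun b _ => ?_
    rw [Matrix.diag_apply, diagonal_mul, Matrix.mul_apply, Complex.re_ofReal_mul, Complex.re_sum,
      Finset.mul_sum]
    refine Finset.sum_congr rfl fun a _ => ?_
    rw [conjTranspose_apply, Complex.star_def, Complex.mul_conj,
      Complex.ofReal_re, Complex.normSq_eq_norm_sq]
  rw [hAQ, hBP, ← Finset.sum_add_distrib]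
  refine Finset.sum_le_sum fun a _ => ?_
  rw [← Finset.sum_add_distrib]
  refine Finset.sum_le_sum fun b _ => ?_
  have hz : (Wᴴ * U) b a = (Wᴴ * Q * U) b a + (Wᴴ * P * U) b a := by
    rw [← Matrix.add_apply, ← Matrix.add_mul, ← Matrix.mul_add, hPQ, Matrix.mul_one]
  rw [hz]
  have hx := hx a
  have hy := hy b
  generalize x a = x at hx
  generalize y b = y at hy
  generalize (Wᴴ * Q * U) b a = z1
  generalize (Wᴴ * P * U) b a = z2
  rcases eq_or_lt_of_le (add_nonneg hx hy) with h0 | h0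
  · have hx0 : x = 0 := by linarith
    have hy0 : y = 0 := by linarith
    subst hx0 hy0
    simp
  · have h9 : ‖z1 + z2‖ ^ 2 ≤ (‖z1‖ + ‖z2‖) ^ 2 :=
      pow_le_pow_left₀ (norm_nonneg _) (norm_add_le _ _) 2
    have h10 : x * y / (x + y) * ‖z1 + z2‖ ^ 2 ≤ x * y / (x + y) * (‖z1‖ + ‖z2‖) ^ 2 :=
      mul_le_mul_of_nonneg_left h9 (by positivity)
    refine h10.trans ?_
    rw [div_mul_eq_mul_div, div_le_iff₀ h0]
    nlinarith [sq_nonneg (x * ‖z1‖ - y * ‖z2‖), mul_nonneg hx hy]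

/-- The positive part projection of a Hermitian matrix and the trace norm. -/
lemma exists_proj {m : Type*} [Fintype m] [DecidableEq m] {T : Matrix m m ℂ}
    (hT : T.IsHermitian) : ∃ P Q : Matrix m m ℂ, Pᴴ = P ∧ P * P = P ∧ Qᴴ = Q ∧ Q * Q = Q ∧
      Q + P = 1 ∧ (CFC.sqrt (Tᴴ * T)).trace = (T * (P - Q)).trace := by
  obtain ⟨R, hR⟩ : ∃ R : Matrix m m ℂ, R = (hT.eigenvectorUnitary : Matrix m m ℂ) := ⟨_, rfl⟩
  obtain ⟨t, ht⟩ : ∃ t : m → ℝ, t = hT.eigenvalues := ⟨_, rfl⟩
  have hRR : Rᴴ * R = 1 := hR ▸ uni1 hT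
  have hRR' : R * Rᴴ = 1 := hR ▸ uni2 hT
  have hsp : T = R * diagonal (fun i => ((t i : ℝ) : ℂ)) * Rᴴ := by
    rw [hR, ht]; exact spec hT
  have habs : CFC.sqrt (Tᴴ * T) = R * diagonal (fun i => ((|t i| : ℝ) : ℂ)) * Rᴴ := by
    rw [hR, ht]; exact abs_eq hT
  clear hR ht
  obtain ⟨p, hp⟩ : ∃ p : m → ℂ, p = fun i => if 0 ≤ t i then 1 else 0 := ⟨_, rfl⟩
  have hpH : (diagonal p)ᴴ = diagonal p := by
    rw [diagonal_conjTranspose]
    congr 1
    ext i
    simp only [hp, Pi.star_apply]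
    split_ifs <;> simp
  have hpp : diagonal p * diagonal p = diagonal p := by
    rw [diagonal_mul_diagonal]
    congr 1
    ext i
    simp only [hp]
    split_ifs <;> simp
  obtain ⟨P, hP⟩ : ∃ P : Matrix m m ℂ, P = R * diagonal p * Rᴴ := ⟨_, rfl⟩
  have hPH : Pᴴ = P := by
    rw [hP, conjTranspose_mul, conjTranspose_mul, hpH, conjTranspose_conjTranspose,
      Matrix.mul_assoc]
  have hPP : P * P = P := by
    calc P * P = R * diagonal p * (Rᴴ * R) * diagonal p * Rᴴ := by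
          rw [hP]; simp only [Matrix.mul_assoc]
      _ = R * (diagonal p * diagonal p) * Rᴴ := by
          rw [hRR]; simp only [Matrix.mul_assoc, Matrix.one_mul]
      _ = P := by rw [hpp, hP]
  have hQH : (1 - P)ᴴ = 1 - P := by rw [conjTranspose_sub, hPH, conjTranspose_one]
  have hQQ : (1 - P) * (1 - P) = 1 - P := by
    have e : (1 - P) * (1 - P) = 1 - P - P + P * P := by noncomm_ring
    rw [e, hPP]; abel
  refine ⟨P, 1 - P, hPH, hPP, hQH, hQQ, by abel, ?_⟩
  rw [habs]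
  congr 1
  have h1 : P - (1 - P) = R * diagonal (fun i => 2 * p i - 1) * Rᴴ := by
    have : (diagonal (fun i => 2 * p i - 1) : Matrix m m ℂ) = diagonal p + diagonal p - 1 := by
      rw [diagonal_add, ← diagonal_one, diagonal_sub]
      congr 1
      ext i
      ring
    rw [this]
    calc P - (1 - P) = P + P - 1 := by abel
      _ = R * diagonal p * Rᴴ + R * diagonal p * Rᴴ - R * Rᴴ := by rw [hRR', hP]
      _ = _ := by rw [Matrix.mul_sub, Matrix.mul_add, Matrix.sub_mul, Matrix.add_mul,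
                    Matrix.mul_one]
  rw [h1]
  conv_rhs => rw [hsp]
  calc _ = R * (diagonal (fun i => ((t i : ℝ) : ℂ)) *
        diagonal (fun i => 2 * p i - 1)) * Rᴴ := by
          congr 2
          rw [diagonal_mul_diagonal]
          congr 1
          ext i
          simp only [hp]
          split_ifs with h
          · rw [abs_of_nonneg h]; ring
          · rw [abs_of_neg (not_le.mp h)]; push_cast; ring
    _ = R * diagonal (fun i => ((t i : ℝ) : ℂ)) * (Rᴴ * R) *
        diagonal (fun i => 2 * p i - 1) * Rᴴ := by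
          rw [hRR]; simp only [Matrix.mul_assoc, Matrix.one_mul]
    _ = _ := by simp only [Matrix.mul_assoc]

/-- the pairwise lower bound -/
lemma pair {m : Type*} [Fintype m] [DecidableEq m] {A B : Matrix m m ℂ} (hA : A.PosSemidef)
    (hB : B.PosSemidef) :
    2 * ∑ a, ∑ b, (hA.1.eigenvalues a * hB.1.eigenvalues b /
        (hA.1.eigenvalues a + hB.1.eigenvalues b)) *
        ‖((hB.1.eigenvectorUnitary : Matrix m m ℂ)ᴴ *
          (hA.1.eigenvectorUnitary : Matrix m m ℂ)) b a‖ ^ 2 ≤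
      (A + B).trace.re - (CFC.sqrt ((A - B)ᴴ * (A - B))).trace.re := by
  obtain ⟨P, Q, hPH, hPP, hQH, hQQ, hPQ, habs⟩ := exists_proj (hA.1.sub hB.1)
  have h := pair_aux hA.1.eigenvalues hB.1.eigenvalues (hA.eigenvalues_nonneg)
    (hB.eigenvalues_nonneg) _ _ P Q (uni2 hA.1) (uni2 hB.1) hPH hPP hQH hQQ hPQ
  rw [← spec hA.1, ← spec hB.1] at h
  have hmain : (A + B).trace - (CFC.sqrt ((A - B)ᴴ * (A - B))).trace =
        2 * ((A * Q).trace + (B * P).trace) := by
    rw [habs]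
    have hP' : P = 1 - Q := by rw [← hPQ]; abel
    have h5 : (A - B) * (P - Q) = A + B - (A * Q + A * Q) - (B * P + B * P) := by
      rw [hP']; noncomm_ring
    rw [h5]
    simp only [trace_sub, trace_add]
    ring
  have h6 := congrArg Complex.re hmain
  rw [Complex.sub_re, Complex.mul_re, Complex.add_re] at h6
  simp only [Complex.re_ofNat, Complex.im_ofNat, zero_mul, sub_zero] at h6
  rw [h6]
  linarith

end Pool.Agent.W815.PTB
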