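import Mathlib
import Pool.Agent.W815.T2

open scoped MatrixOrder ComplexOrder
open Matrix

namespace Pool.Agent.W815.PTB

lemma sum_pos {κ M : Type*} [Fintype κ] [AddCommMonoid M] (lam : κ → ℝ) (hnn : ∀ p, 0 ≤ lam p)
    (f : κ → M) (hf : ∀ p, lam p = 0 → f p = 0) :
    ∑ p : {p // 0 < lam p}, f p = ∑ p, f p := by
  classical
  rw [← Finset.sum_subtype (s := Finset.univ.filter fun p => 0 < lam p) (by simp) f]
  refine Finset.sum_filter_of_ne fun p _ hp => ?_
  rcases (hnn p).lt_or_eq with h | h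
  · exact h
  · exact absurd (hf p h.symm) hp

lemma sum_lt_pairs {n : ℕ} (F : Fin n → Fin n → ℝ) (hF : ∀ j k, F j k = F k j) :
    ∑ j, ∑ k, (if j = k then 0 else F j k) =
      ∑ p : Fin n × Fin n with p.1 < p.2, 2 * F p.1 p.2 := by
  have h1 : ∑ j, ∑ k, (if j = k then 0 else F j k) =
      ∑ j, ∑ k, ((if j < k then F j k else 0) + (if k < j then F j k else 0)) := by
    refine Finset.sum_congr rfl fun j _ => Finset.sum_congr rfl fun k _ => ?_
    rcases lt_trichotomy j k with h | h | h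
    · simp [h, h.ne, h.not_gt]
    · simp [h]
    · simp [h, h.ne', h.not_gt]
  rw [h1]
  simp only [Finset.sum_add_distrib]
  have h2 : ∑ j, ∑ k, (if k < j then F j k else 0) = ∑ j, ∑ k, (if j < k then F j k else 0) := by
    rw [Finset.sum_comm]
    refine Finset.sum_congr rfl fun j _ => Finset.sum_congr rfl fun k _ => ?_
    rw [hF]
  rw [h2, Finset.sum_filter, Fintype.sum_prod_type, ← two_mul, Finset.mul_sum]
  refine Finset.sum_congr rfl fun j _ => ?_
  rw [Finset.mul_sum]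
  refine Finset.sum_congr rfl fun k _ => ?_
  split_ifs <;> simp

theorem main (n d : ℕ) (A : Fin n → Matrix (Fin d) (Fin d) ℂ) (hA : ∀ j, (A j).PosSemidef) :
    ∑ p : Fin n × Fin n with p.1 < p.2,
        ((CFC.sqrt ((A p.1 - A p.2)ᴴ * (A p.1 - A p.2))).trace.re - (A p.1 + A p.2).trace.re)
      ≤ (CFC.sqrt (∑ j, A j ^ 2)).trace.re - ∑ j, (A j).trace.re := by
  classical
  obtain ⟨lam, hlam⟩ : ∃ lam : Fin n × Fin d → ℝ, lam = fun p => (hA p.1).1.eigenvalues p.2 :=
    ⟨_, rfl⟩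
  obtain ⟨U, hU⟩ : ∃ U : Fin n → Matrix (Fin d) (Fin d) ℂ,
      U = fun j => ((hA j).1.eigenvectorUnitary : Matrix (Fin d) (Fin d) ℂ) := ⟨_, rfl⟩
  have hnn : ∀ p, 0 ≤ lam p := fun p => by rw [hlam]; exact (hA p.1).eigenvalues_nonneg p.2
  have hUU : ∀ j, (U j)ᴴ * U j = 1 := fun j => by rw [hU]; exact uni1 _
  have hsp : ∀ j, A j = U j * diagonal (fun i => ((lam (j, i) : ℝ) : ℂ)) * (U j)ᴴ := fun j => by
    rw [hU, hlam]; exact spec _
  have hpair : ∀ j k, 2 * ∑ a, ∑ b, (lam (j, a) * lam (k, b) / (lam (j, a) + lam (k, b))) *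
        ‖((U k)ᴴ * (U j)) b a‖ ^ 2 ≤
      (A j + A k).trace.re - (CFC.sqrt ((A j - A k)ᴴ * (A j - A k))).trace.re := fun j k => by
    rw [hU, hlam]
    exact pair (hA j) (hA k)
  clear hlam hU
  -- matrix of scaled eigenvectors for the positive eigenvalues
  obtain ⟨V, hV⟩ : ∃ V : Matrix (Fin d) {p : Fin n × Fin d // 0 < lam p} ℂ,
    ∀ r p, V r p = ((lam p.1 : ℝ) : ℂ) * U p.1.1 r p.1.2 := ⟨Matrix.of fun r p => _, fun _ _ => rfl⟩
  have hVV : V * Vᴴ = ∑ j, A j ^ 2 := by
    ext r s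
    have h1 : (V * Vᴴ) r s = ∑ p : {p : Fin n × Fin d // 0 < lam p},
        (fun p : Fin n × Fin d => ((lam p : ℝ) : ℂ) ^ 2 * (U p.1 r p.2 * star (U p.1 s p.2))) p := by
      rw [Matrix.mul_apply]
      refine Finset.sum_congr rfl fun p _ => ?_
      simp only [hV, conjTranspose_apply, star_mul', Complex.star_def,
        Complex.conj_ofReal]
      ring
    refine (h1.trans (sum_pos lam hnn (fun p : Fin n × Fin d => ((lam p : ℝ) : ℂ) ^ 2 *
      (U p.1 r p.2 * star (U p.1 s p.2))) (fun p hp => by simp [hp]))).trans ?_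
    rw [Fintype.sum_prod_type, Matrix.sum_apply]
    refine Finset.sum_congr rfl fun j _ => ?_
    have h2 : A j ^ 2 = U j * diagonal (fun i => ((lam (j, i) : ℝ) : ℂ) ^ 2) * (U j)ᴴ := by
      have h3 : (diagonal (fun i => ((lam (j, i) : ℝ) : ℂ) ^ 2) : Matrix (Fin d) (Fin d) ℂ) =
          diagonal (fun i => ((lam (j, i) : ℝ) : ℂ)) * diagonal (fun i => ((lam (j, i) : ℝ) : ℂ)) := by
        rw [diagonal_mul_diagonal]
        congr 1
        ext i
        ring
      rw [h3, sq]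
      conv_lhs => rw [hsp j]
      calc _ = U j * diagonal (fun i => ((lam (j, i) : ℝ) : ℂ)) * ((U j)ᴴ * U j) *
            diagonal (fun i => ((lam (j, i) : ℝ) : ℂ)) * (U j)ᴴ := by
              simp only [Matrix.mul_assoc]
        _ = _ := by rw [hUU]; simp only [Matrix.mul_assoc, Matrix.one_mul]
    rw [h2, Matrix.mul_apply]
    refine Finset.sum_congr rfl fun a _ => ?_
    rw [mul_diagonal, conjTranspose_apply]
    ring
  -- the Gram matrix
  obtain ⟨G, hG⟩ : ∃ G, G = CFC.sqrt (Vᴴ * V) := ⟨_, rfl⟩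
  have hGps : G.PosSemidef := by rw [hG]; exact (CFC.sqrt_nonneg _).posSemidef
  have hGG : G * G = Vᴴ * V := by
    rw [hG]; exact CFC.sqrt_mul_sqrt_self _ (posSemidef_conjTranspose_mul_self V).nonneg
  have hGe : ∀ p q, (G * G) p q = ((lam p.1 : ℝ) : ℂ) * ((lam q.1 : ℝ) : ℂ) *
      ((U p.1.1)ᴴ * (U q.1.1)) p.1.2 q.1.2 := by
    intro p q
    rw [hGG, Matrix.mul_apply, Matrix.mul_apply, Finset.mul_sum]
    refine Finset.sum_congr rfl fun r _ => ?_
    simp only [hV, conjTranspose_apply, star_mul', Complex.star_def, Complex.conj_ofReal]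
    ring
  have hk := key (fun p : {p : Fin n × Fin d // 0 < lam p} => lam p.1) (fun p => p.2) G hGps
    (fun p => by
      rw [hGe, hUU, Matrix.one_apply_eq]
      ring)
  -- trace of √∑ A²
  have hS : (CFC.sqrt (∑ j, A j ^ 2)).trace.re = G.trace.re := by
    rw [← hVV, tr_sqrt_comm, hG]
  -- sum of traces
  have hTr : ∑ p : {p : Fin n × Fin d // 0 < lam p}, lam p.1 = ∑ j, (A j).trace.re := by
    rw [sum_pos lam hnn lam (fun p hp => hp), Fintype.sum_prod_type]
    refine Finset.sum_congr rfl fun j _ => ?_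
    conv_rhs => rw [hsp j, trace_mul_comm, ← Matrix.mul_assoc, hUU, Matrix.one_mul]
    simp [Matrix.trace, Complex.re_sum]
  -- the pair sums
  have hfun : ∀ p q : {p : Fin n × Fin d // 0 < lam p},
      (if p = q then 0 else ‖(G * G) p q‖ ^ 2 / (lam p.1 * lam q.1 * (lam p.1 + lam q.1))) =
      (fun p q : Fin n × Fin d => if p.1 = q.1 then 0 else
        lam p * lam q / (lam p + lam q) * ‖((U p.1)ᴴ * (U q.1)) p.2 q.2‖ ^ 2) p q := by
    intro p q
    have hp := p.2
    have hq := q.2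
    have h4 : p ≠ q → ‖(G * G) p q‖ ^ 2 / (lam p.1 * lam q.1 * (lam p.1 + lam q.1)) =
        lam p.1 * lam q.1 / (lam p.1 + lam q.1) *
          ‖((U p.1.1)ᴴ * (U q.1.1)) p.1.2 q.1.2‖ ^ 2 := by
      intro _
      rw [hGe, norm_mul, norm_mul, Complex.norm_real, Complex.norm_real, Real.norm_of_nonneg hp.le,
        Real.norm_of_nonneg hq.le]
      field_simp
    by_cases h : p = q
    · subst h; simp
    · rw [if_neg h, h4 h]
      by_cases h' : p.1.1 = q.1.1
      · simp only [h', if_true]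
        have h5 : p.1.2 ≠ q.1.2 := fun h5 => h (Subtype.ext (Prod.ext h' h5))
        rw [hUU, Matrix.one_apply_ne h5]
        simp
      · simp only [h', if_false]
  simp only [hfun] at hk
  have hsum : ∑ p : {p : Fin n × Fin d // 0 < lam p}, ∑ q : {p : Fin n × Fin d // 0 < lam p},
      (fun p q : Fin n × Fin d => if p.1 = q.1 then 0 else
        lam p * lam q / (lam p + lam q) * ‖((U p.1)ᴴ * (U q.1)) p.2 q.2‖ ^ 2) p q =
      ∑ j, ∑ k, (if j = k then 0 else ∑ a, ∑ b, (lam (j, a) * lam (k, b) /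
        (lam (j, a) + lam (k, b))) * ‖((U k)ᴴ * (U j)) b a‖ ^ 2) := by
    have h6 : ∀ p : Fin n × Fin d, ∑ q : {p : Fin n × Fin d // 0 < lam p},
      (fun p q : Fin n × Fin d => if p.1 = q.1 then 0 else
        lam p * lam q / (lam p + lam q) * ‖((U p.1)ᴴ * (U q.1)) p.2 q.2‖ ^ 2) p q =
      ∑ q, (if p.1 = q.1 then 0 else
        lam p * lam q / (lam p + lam q) * ‖((U p.1)ᴴ * (U q.1)) p.2 q.2‖ ^ 2) := by
      intro p
      exact sum_pos lam hnn (fun q => if p.1 = q.1 then 0 else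
        lam p * lam q / (lam p + lam q) * ‖((U p.1)ᴴ * (U q.1)) p.2 q.2‖ ^ 2)
        (fun q hq => by simp [hq])
    simp only [h6]
    rw [sum_pos lam hnn (fun p => ∑ q : Fin n × Fin d, if p.1 = q.1 then 0 else
        lam p * lam q / (lam p + lam q) * ‖((U p.1)ᴴ * (U q.1)) p.2 q.2‖ ^ 2)
        (fun p hp => by simp [hp]), Fintype.sum_prod_type]
    refine Finset.sum_congr rfl fun j _ => ?_
    simp only [Fintype.sum_prod_type]
    rw [Finset.sum_comm]
    refine Finset.sum_congr rfl fun k _ => ?_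
    by_cases h : j = k
    · simp [h]
    · simp only [h, if_false]
      refine Finset.sum_congr rfl fun a _ => Finset.sum_congr rfl fun b _ => ?_
      congr 2
      have h7 : ((U k)ᴴ * (U j)) b a = star (((U j)ᴴ * (U k)) a b) := by
        rw [← conjTranspose_apply, conjTranspose_mul, conjTranspose_conjTranspose]
      rw [h7, norm_star]
  rw [hsum, sum_lt_pairs (fun j k => ∑ a, ∑ b, (lam (j, a) * lam (k, b) /
        (lam (j, a) + lam (k, b))) * ‖((U k)ᴴ * (U j)) b a‖ ^ 2)] at hk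
  · rw [hS, ← hTr]
    have h8 : ∑ p : Fin n × Fin n with p.1 < p.2, 2 * (∑ a, ∑ b, (lam (p.1, a) * lam (p.2, b) /
        (lam (p.1, a) + lam (p.2, b))) * ‖((U p.2)ᴴ * (U p.1)) b a‖ ^ 2) ≤
        ∑ p : Fin n × Fin n with p.1 < p.2, ((A p.1 + A p.2).trace.re -
          (CFC.sqrt ((A p.1 - A p.2)ᴴ * (A p.1 - A p.2))).trace.re) :=
      Finset.sum_le_sum fun p _ => hpair p.1 p.2
    have h9 : ∑ p : Fin n × Fin n with p.1 < p.2,
        ((CFC.sqrt ((A p.1 - A p.2)ᴴ * (A p.1 - A p.2))).trace.re - (A p.1 + A p.2).trace.re) =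
        - ∑ p : Fin n × Fin n with p.1 < p.2, ((A p.1 + A p.2).trace.re -
          (CFC.sqrt ((A p.1 - A p.2)ᴴ * (A p.1 - A p.2))).trace.re) := by
      rw [← Finset.sum_neg_distrib]
      refine Finset.sum_congr rfl fun p _ => ?_
      ring
    rw [h9]
    linarith
  · intro j k
    rw [Finset.sum_comm]
    refine Finset.sum_congr rfl fun a _ => Finset.sum_congr rfl fun b _ => ?_
    have h7 : ((U k)ᴴ * (U j)) a b = star (((U j)ᴴ * (U k)) b a) := by
      rw [← conjTranspose_apply, conjTranspose_mul, conjTranspose_conjTranspose]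
    rw [h7, norm_star, mul_comm (lam (j, b)), add_comm (lam (j, b))]

end Pool.Agent.W815.PTB
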